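import Pool.Agent.Y173.QA.DefsU

/-! Rational 1-forms with logarithmic poles, their polar divisor, the condition of Reid-Tai type
outside of the poles, and the logarithmic Kodaira dimension. -/

set_option autoImplicit false
set_option linter.overlappingInstances false
set_option linter.unusedSectionVars false

universe u v

open FF IntermediateField Pool.Agent.W619.PQ Pool.Agent.W619.TW Pool.Agent.W603.LV
  Pool.Agent.Y173.QA

namespace Pool.Agent.Y173.QL

section

variable {k : Type v} {L : Type u} [Field k] [Field L] [Algebra k L]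

/-- The rational `1`-form `θ` is regular along the divisor `w`: it takes vector fields which are
regular along `w` to functions regular along `w`. -/
def RegAt (w : Place k L) (θ : Derivation k L L →ₗ[L] L) : Prop :=
  ∀ D : Derivation k L L, (∀ f, w.Reg f → w.Reg (D f)) → w.Reg (θ D)

/-- The rational `1`-form `θ` has at most logarithmic poles along all prime divisors over the
variety: it takes vector fields which are logarithmic along a divisor `w` (they preserve all powers
of the maximal ideal of its local ring) to functions regular along `w`. -/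
def IsLogForm (n : ℕ) (θ : Derivation k L L →ₗ[L] L) : Prop :=
  ∀ w : Place k L, IsDivisorial w n → ∀ D : Derivation k L L, (∀ f, w.Reg (D f / f)) →
    w.Reg (θ D)

/-- The condition of Reid-Tai type outside of the poles of the space `V` of `1`-forms: if `g ≠ 1`
in `G` fixes pointwise a prime divisor `w` along which all forms in `V` are regular, and acts on
the elements `θ 1, ..., θ n` of `V`, whose exterior product is not zero, by
`ζ ^ a 1, ..., ζ ^ a n` with `0 ≤ a i < d`, where `d` is the order of `g` and `ζ` is a primitive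
`d`-th root of unity, then `∑ a i ≥ d`. -/
def ReidTaiLog (n : ℕ) (G : Subgroup (L ≃ₐ[k] L)) (V : Submodule k (Derivation k L L →ₗ[L] L)) :
    Prop :=
  ∀ g ∈ G, g ≠ 1 → ∀ w : Place k L, IsDivisorial w n → (∀ θ ∈ V, RegAt w θ) →
    (∀ z, w.Reg z → g z - z = 0 ∨ 1 ≤ w.ord (g z - z)) →
    ∀ ζ : k, IsPrimitiveRoot ζ (orderOf g) →
    ∀ (θ : Fin n → Derivation k L L →ₗ[L] L) (a : Fin n → ℕ),
      (∀ i, θ i ∈ V ∧ a i < orderOf g ∧ IsImage g (θ i) (ζ ^ a i • θ i)) →
      (∃ D : Fin n → Derivation k L L, (Matrix.of fun i j => θ i (D j)).det ≠ 0) →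
      orderOf g ≤ ∑ i, a i

/-- The boundary: the prime divisors over the quotient by `G` which lie below a divisor along which
not all forms in `V` are regular. -/
def polarBoundary (G : Subgroup (L ≃ₐ[k] L)) (V : Submodule k (Derivation k L L →ₗ[L] L))
    (v : Place k (fixedField G)) : Prop :=
  ∃ (w : Place k L) (e : ℕ), Over w v e ∧ ∃ θ ∈ V, ¬ RegAt w θ

end

/-- `κ (K + D) ≥ h`: for some `m ≥ 1` there are `h + 1` sections of `m (K + D)`, `D` the reduced
boundary `Bd`, whose ratios `ω l / ω 0`, `l = 1, ..., h`, are algebraically independent. -/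
def KodLog (k : Type*) (K : Type*) [Field k] [Field K] [Algebra k K] (n : ℕ)
    (Bd : Place k K → Prop) (h : ℕ) : Prop :=
  ∃ m : ℕ, 1 ≤ m ∧ ∃ ω : Fin (h + 1) → (Fin n → Derivation k K K) → K,
    (∀ l, IsSec k K n Bd {1} m 0 (ω l)) ∧
    ∃ D, (∀ l, ω l D ≠ 0) ∧ AlgebraicIndependent k (fun l : Fin h => ω l.succ D / ω 0 D)

end Pool.Agent.Y173.QL
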