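import Pool.Agent.Y173.QL.Defs
import Pool.Agent.Y173.QA.Kod

/-! The local estimate at a divisor outside of the poles. -/

set_option autoImplicit false
set_option linter.overlappingInstances false
set_option linter.unusedSectionVars false

universe u v

open FF IntermediateField Pool.Agent.W619.PQ Pool.Agent.W619.PL Pool.Agent.W619.TW
  Pool.Agent.W603.LV Pool.Agent.W619.Y Pool.Agent.Y173.QA

namespace Pool.Agent.Y173.QL

section loc

variable {k : Type v} {L : Type u} [Field k] [CharZero k] [Field L] [Algebra k L]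

/-- **The local estimate at a ramified divisor.** -/
theorem rt_local {n : ℕ} {G : Subgroup (L ≃ₐ[k] L)} {V : Submodule k (Derivation k L L →ₗ[L] L)}
    (w : Place k L) (hw : IsDivisorial w n) (hreg : ∀ θ ∈ V, RegAt w θ)
    (hstab : ∀ g ∈ G, ∀ θ ∈ V, ∃ θ' ∈ V, IsImage g θ θ')
    (hRT : ReidTaiLog n G V) (h : L ≃ₐ[k] L) (hG : h ∈ G)
    {e : ℕ} (he : orderOf h = e) (he2 : 2 ≤ e) {ζ : k} (hζ : IsPrimitiveRoot ζ e)
    (hrot : ∀ z : L, z ≠ 0 → Ge w (w.ord z + 1) (h z - algebraMap k L (ζ ^ (w.ord z)) * z))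
    (θ : Fin n → Derivation k L L →ₗ[L] L) (hθ : ∀ i, θ i ∈ V)
    (E : Fin n → Derivation k L L) (hE : ∀ j z, w.Reg (E j z / z))
    (hEh : ∀ j z, h (E j z) = E j (h z)) :
    Ge w e (Matrix.of fun i j => θ i (E j)).det := by
  classical
  have hact : ∀ θ ∈ V, act h θ ∈ V := by
    intro θ hθ
    obtain ⟨θ', h1, h2⟩ := hstab h hG θ hθ
    rw [isImage_iff] at h2
    rwa [← h2]
  have hT : ∀ x, ((act h) ^ e) x = x := by
    intro x
    rw [act_pow, ← he, pow_orderOf_eq_one]
    have := act_pow (1 : L ≃ₐ[k] L) 0 x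
    rw [pow_zero, pow_zero, Module.End.one_apply] at this
    exact this.symm
  have hfix : ∀ z, w.Reg z → h z - z = 0 ∨ 1 ≤ w.ord (h z - z) := by
    intro z hz
    by_cases hz0 : z = 0
    · left; rw [hz0, map_zero, sub_zero]
    have hz' : 0 ≤ w.ord z := hz.resolve_left hz0
    have h1 : Ge w 1 (h z - algebraMap k L (ζ ^ (w.ord z)) * z) :=
      (hrot z hz0).mono (by omega)
    have h2 : Ge w 1 (algebraMap k L (ζ ^ (w.ord z)) * z - z) := by
      rcases hz'.eq_or_lt with h3 | h3
      · rw [← h3, zpow_zero, map_one, one_mul, sub_self]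
        exact Ge.zero
      · have h4 : Ge w 1 z := Or.inr (by omega)
        have h5 := (Ge.const (P := w) (ζ ^ (w.ord z))).mul h4
        rw [zero_add] at h5
        exact h5.sub h4
    have h3 := h1.add h2
    rw [sub_add_sub_cancel] at h3
    exact h3
  have hPres : ∀ j, ∀ f, w.Reg f → w.Reg (E j f) := by
    intro j f hf
    by_cases hf0 : f = 0
    · rw [hf0, map_zero]; exact w.reg_zero
    · have h1 := w.reg_mul (hE j f) hf
      rwa [div_mul_cancel₀ _ hf0] at h1
  choose c hcV hcT hcs using fun i => eig_decomp (by omega : 0 < e) hζ (act h) hT V hact (θ i) (hθ i)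
  have hM : (Matrix.of fun i j => θ i (E j)) = Matrix.of fun i j => (∑ a, c i a (E j)) := by
    ext i j
    rw [Matrix.of_apply, Matrix.of_apply]
    conv_lhs => rw [← hcs i]
    rw [LinearMap.sum_apply]
  have hdet : (Matrix.of fun i j => (∑ a, c i a (E j))).det =
      ∑ r : Fin n → Fin e, (Matrix.of fun i j => c i (r i) (E j)).det := by
    have h1 := (Matrix.detRowAlternating (R := L) (n := Fin n)).toMultilinearMap.map_sum
      (fun (i : Fin n) (a : Fin e) => (fun j => c i a (E j)))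
    have h2 : (fun i => ∑ a : Fin e, (fun j => c i a (E j))) =
        Matrix.of fun i j => (∑ a, c i a (E j)) := by
      ext i j
      rw [Finset.sum_apply, Matrix.of_apply]
    rw [h2] at h1
    exact h1
  rw [hM, hdet]
  refine Ge.sum _ _ fun r _ => ?_
  by_cases h0 : (Matrix.of fun i j => c i (r i) (E j)).det = 0
  · rw [h0]; exact Ge.zero
  have h1 := hRT h hG (fun h1 => by rw [h1, orderOf_one] at he; omega) w hw hreg hfix ζ (he ▸ hζ)
    (fun i => c i (r i)) (fun i => (r i : ℕ)) (fun i => ⟨hcV i _, he ▸ (r i).2, ?_⟩) ⟨E, h0⟩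
  · have h2 : Ge w (∑ i, ((r i : ℕ) : ℤ)) (Matrix.of fun i j => c i (r i) (E j)).det := by
      refine ge_det_row w _ _ fun i j => ?_
      rw [Matrix.of_apply]
      refine eig_ord hζ w h hrot (r i).2 (hreg _ (hcV i _) (E j) (hPres j)) ?_
      have h3 := act_comm h (c i (r i)) (E j) (hEh j)
      rw [← h3, hcT]
      rfl
    refine h2.mono ?_
    rw [he] at h1
    exact_mod_cast h1
  · rw [isImage_iff, hcT]

/-- the estimate for the exterior product of `n` forms, outside of the poles -/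
theorem est_eta {n : ℕ} (G : Subgroup (L ≃ₐ[k] L)) [Finite G]
    {V : Submodule k (Derivation k L L →ₗ[L] L)} (htr : Algebra.trdeg k L = n)
    (hstab : ∀ g ∈ G, ∀ θ ∈ V, ∃ θ' ∈ V, IsImage g θ θ')
    (hRT : ReidTaiLog n G V)
    {v : Place k (fixedField G)} {w : Place k L} {e : ℕ} (hwv : Over w v e)
    (hw : IsDivisorial w n) (hreg : ∀ θ ∈ V, RegAt w θ)
    {h : G} {ζ : k} (hord : orderOf (h : L ≃ₐ[k] L) = e)
    (hζ : IsPrimitiveRoot ζ e) (hrot : Rot w (h : L ≃ₐ[k] L) ζ)
    {θ : Fin n → Derivation k L L →ₗ[L] L} (hθ : ∀ i, θ i ∈ V)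
    {D : Fin n → Derivation k (fixedField G) (fixedField G)}
    {D' : Fin n → Derivation k L L} (hD : ∀ j, Pres v (D j))
    (hDD : ∀ j (f : fixedField G), D' j (f : L) = (D j f : L)) :
    Ge w 0 (eta θ D') := by
  refine core G htr hwv h (eta_pluri θ) 0 ?_ ?_ D D' hD hDD
  · intro he2 E' hlog hcomm
    have h2 : Ge w e (eta θ E') :=
      rt_local w hw hreg hstab hRT h h.2 hord he2 hζ hrot θ hθ E' hlog hcomm
    simpa using h2
  · intro _ E' hE'
    exact Pool.Agent.W619.PQ.ge_det w _ fun i j => hreg _ (hθ i) (E' j) (hE' j)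

/-- the estimate for the exterior product of `n` forms, on logarithmic vector fields -/
theorem est_log {n : ℕ} (G : Subgroup (L ≃ₐ[k] L)) [Finite G]
    {V : Submodule k (Derivation k L L →ₗ[L] L)} (hlf : ∀ θ ∈ V, IsLogForm n θ)
    {v : Place k (fixedField G)} {w : Place k L} {e : ℕ} (hwv : Over w v e)
    (hw : IsDivisorial w n)
    {θ : Fin n → Derivation k L L →ₗ[L] L} (hθ : ∀ i, θ i ∈ V)
    {D : Fin n → Derivation k (fixedField G) (fixedField G)}
    {D' : Fin n → Derivation k L L} (hD : ∀ j f, v.Reg (D j f / f))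
    (hDD : ∀ j (f : fixedField G), D' j (f : L) = (D j f : L)) :
    Ge w 0 (eta θ D') := by
  have hfd := fd_fixed G
  refine Pool.Agent.W619.PQ.ge_det w _ fun i j => hlf _ (hθ i) w hw (D' j) ?_
  refine pLOG k (fixedField G) L v w e hwv (D' j) ?_
  intro f
  have h6 : D' j (algebraMap (fixedField G) L f) / algebraMap (fixedField G) L f =
      algebraMap (fixedField G) L (D j f / f) := by
    rw [map_div₀]
    congr 1
    exact hDD j f
  rw [h6]
  exact hwv.reg.2 (hD j f)

end loc

end Pool.Agent.Y173.QL
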