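import Pool.Agent.Y173.QL.Defs
import Pool.Agent.Y173.QA.Str2

/-! The structure theorem for spaces of closed 1-forms with logarithmic poles. -/

set_option autoImplicit false
set_option linter.overlappingInstances false
set_option linter.unusedSectionVars false

open FF IntermediateField Pool.Agent.W619.PQ Pool.Agent.W619.PL Pool.Agent.W619.TW
  Pool.Agent.W603.LV Pool.Agent.W619.Y Pool.Agent.TH122.AB Pool.Agent.Y173.QA

namespace Pool.Agent.Y173.QL

variable {k : Type} [Field k] [CharZero k] {L : Type} [Field L] [Algebra k L]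

/-- a vector field which preserves the valuation ring becomes logarithmic when multiplied by an
element of the maximal ideal -/
theorem log_smul_of {P : Place k L} {E : Derivation k L L} (hE : Pres P E) {q : L} (hq : Ge P 1 q)
    (f : L) : P.Reg ((q • E) f / f) := by
  obtain ⟨s, hs0, hs⟩ := P.surj
  refine log_of_pres P (q • E) (fun z hz => ?_) hs0 hs ?_ f
  · rw [Derivation.smul_apply, smul_eq_mul]
    have h1 : Ge P 0 (E z) := hE z hz
    have h2 := (hq.mono (show (0 : ℤ) ≤ 1 by norm_num)).mul h1
    rw [add_zero] at h2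
    exact h2
  · rw [Derivation.smul_apply, smul_eq_mul, div_eq_mul_inv]
    have h1 : Ge P 0 (E s) := hE s (Or.inr (by rw [hs]; norm_num))
    have h2 : Ge P (-1) s⁻¹ := Or.inr (by rw [P.ord_inv, hs])
    have h3 := (hq.mul h1).mul h2
    have e3 : (1 : ℤ) + 0 + -1 = 0 := by norm_num
    rw [e3] at h3
    exact h3

theorem log_smul {P : Place k L} {s : L} (hs : P.ord s = 1) {E : Derivation k L L}
    (hE : Pres P E) (f : L) : P.Reg ((s • E) f / f) :=
  log_smul_of hE (Or.inr (by rw [hs])) f

/-- derivatives at a pole, logarithmic version -/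
theorem pole_log {P : Place k L} {s : L} (hs : P.ord s = 1) {E : Derivation k L L}
    (hE : Pres P E) (hEs : E s = 1) {z : L} (hz : P.ord z < 0) :
    ¬ P.Reg (s * E z) := by
  have hs0 : s ≠ 0 := by
    rintro rfl
    rw [P.ord_zero] at hs
    norm_num at hs
  have hz0 : z ≠ 0 := by
    rintro rfl
    rw [P.ord_zero] at hz
    exact lt_irrefl _ hz
  intro hreg
  obtain ⟨p, hp⟩ : ∃ p : ℕ, P.ord z = -(p + 1 : ℕ) := by
    obtain ⟨q, hq⟩ := Int.eq_ofNat_of_zero_le (show 0 ≤ -P.ord z - 1 by omega)
    exact ⟨q, by push_cast; omega⟩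
  have h1 : Ge P 0 (E (z * s ^ (p + 1))) := by
    apply hE
    right
    rw [P.ord_mul hz0 (pow_ne_zero _ hs0), P.ord_pow, hs, hp]
    push_cast
    omega
  rw [E.leibniz, E.leibniz_pow, hEs] at h1
  simp only [smul_eq_mul, nsmul_eq_mul, mul_one, Nat.add_sub_cancel] at h1
  have h2 : Ge P 0 (s ^ (p + 1) * E z) := by
    have h3 : Ge P 0 (s ^ p) := Or.inr (by rw [P.ord_pow, hs]; positivity)
    have h4 : Ge P 0 (s * E z) := hreg
    have h5 := h3.mul h4
    have h6 : s ^ (p + 1) * E z = s ^ p * (s * E z) := by ring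
    rw [h6]
    simpa using h5
  have h3 := h1.sub h2
  have h4 : z * (((p + 1 : ℕ) : L) * s ^ p) + s ^ (p + 1) * E z - s ^ (p + 1) * E z =
      ((p + 1 : ℕ) : L) * (z * s ^ p) := by ring
  rw [h4] at h3
  have hcast : ((p + 1 : ℕ) : L) ≠ 0 := by
    have hcL : CharZero L := charZero_of_injective_algebraMap (algebraMap k L).injective
    exact Nat.cast_ne_zero.2 (by omega)
  have hcast' : ((p + 1 : ℕ) : L) = algebraMap k L ((p + 1 : ℕ) : k) := by
    rw [map_natCast]
  have h5 := h3.resolve_left (mul_ne_zero hcast (mul_ne_zero hz0 (pow_ne_zero _ hs0)))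
  rw [P.ord_mul hcast (mul_ne_zero hz0 (pow_ne_zero _ hs0)), P.ord_mul hz0 (pow_ne_zero _ hs0),
    P.ord_pow, hs, hp, hcast', P.ord_const (Nat.cast_ne_zero.2 (by omega))] at h5
  push_cast at h5
  omega

/-- **The structure theorem.** -/
theorem structure_thm [IsAlgClosed k] {n : ℕ} (hn : Algebra.trdeg k L = n)
    (hfin : ∀ y : Fin n → L, IsTranscendenceBasis k y →
      FiniteDimensional (IntermediateField.adjoin k (Set.range y)) L)
    (V : Submodule k (Derivation k L L →ₗ[L] L)) (hlf : ∀ θ ∈ V, IsLogForm n θ)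
    (hcl : ∀ θ ∈ V, IsClosedForm θ) {θ : Fin n → Derivation k L L →ₗ[L] L} (hθ : ∀ i, θ i ∈ V)
    {D0 : Fin n → Derivation k L L} (hD0 : eta θ D0 ≠ 0) :
    ∃ (a r : ℕ) (t : Fin a → L) (P : Fin n → Derivation k L L) (U : Fin r → Derivation k L L),
      a + r = n ∧ AlgebraicIndependent k t ∧ (∀ i j, θ i (P j) = if i = j then 1 else 0) ∧
      (∀ D, D = ∑ i, θ i D • P i) ∧ (∀ j, ∃ τ ∈ V, ∃ i, t j = τ (P i)) ∧
      (∀ i, U i ∈ constFields V) ∧ (∀ i j, U i (t j) = 0) ∧
      (∀ D : Derivation k L L, (∀ j, D (t j) = 0) → ∃ c : Fin r → L, D = ∑ i, c i • U i) ∧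
      LinearIndependent L U ∧ Module.finrank k (constFields V) = r := by
  classical
  obtain ⟨P, hP1, hP2⟩ := dual_frame hn hD0
  let S1 : Set L := {x | ∃ τ ∈ V, ∃ i, x = τ (P i)}
  have huniv : Algebra.IsAlgebraic (IntermediateField.adjoin k (Set.univ : Set L)) L := by
    refine ⟨fun x => ?_⟩
    exact isAlgebraic_algebraMap (⟨x, IntermediateField.subset_adjoin k _ (Set.mem_univ x)⟩ :
      IntermediateField.adjoin k (Set.univ : Set L))
  obtain ⟨a, r, t, u, har, htS, -, hbas, hkill⟩ :=
    Pool.Agent.W602.GT.basis_pick hn S1 Set.univ huniv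
  obtain ⟨E, hE⟩ := exists_duals hbas
  have hEtt : ∀ j l, E (Sum.inl j) (t l) = if j = l then 1 else 0 := by
    intro j l
    have h1 := hE (Sum.inl j) (Sum.inl l)
    rw [Sum.elim_inl] at h1
    rw [h1]
    by_cases hjl : j = l
    · rw [if_pos hjl, if_pos (by rw [hjl])]
    · rw [if_neg hjl, if_neg (fun h => hjl (Sum.inl_injective h))]
  have hEut : ∀ j l, E (Sum.inr j) (t l) = 0 := by
    intro j l
    have h1 := hE (Sum.inr j) (Sum.inl l)
    rw [Sum.elim_inl, if_neg Sum.inr_ne_inl] at h1
    exact h1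
  -- the distribution
  let N : Submodule L (Derivation k L L) :=
    { carrier := {D | ∀ j, D (t j) = 0}
      zero_mem' := fun j => by simp
      add_mem' := by
        intro D D' h h' j
        rw [Derivation.add_apply, h j, h' j, add_zero]
      smul_mem' := by
        intro c D h j
        rw [Derivation.smul_apply, h j, smul_zero] }
  have hNmem : ∀ D, D ∈ N ↔ ∀ j, D (t j) = 0 := fun D => Iff.rfl
  have hexp : ∀ D ∈ N, D = ∑ i, D (u i) • E (Sum.inr i) := by
    intro D hD
    have h1 := der_expand hbas hE D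
    rw [Fintype.sum_sum_type] at h1
    have h2 : ∑ j, D ((Sum.elim t u : Fin a ⊕ Fin r → L) (Sum.inl j)) • E (Sum.inl j) = 0 := by
      refine Finset.sum_eq_zero fun j _ => ?_
      rw [Sum.elim_inl, hD j, zero_smul]
    rw [h2, zero_add] at h1
    exact h1
  have hbr : ∀ D ∈ N, ∀ D' : Derivation k L L, (∀ j, ∃ c : k, D' (t j) = algebraMap k L c) →
      ⁅D, D'⁆ ∈ N := by
    intro D hD D' hD' j
    obtain ⟨c, hc⟩ := hD' j
    rw [Derivation.commutator_apply, hc, D.map_algebraMap, hD j, map_zero, sub_zero]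
  have hEc : ∀ l j, ∃ c : k, E (Sum.inl l) (t j) = algebraMap k L c := by
    intro l j
    rw [hEtt]
    by_cases hjl : l = j
    · exact ⟨1, by rw [if_pos hjl, map_one]⟩
    · exact ⟨0, by rw [if_neg hjl, map_zero]⟩
  -- the rank
  let b : Fin r → N := fun i => ⟨E (Sum.inr i), fun j => hEut i j⟩
  have hbN : Submodule.span L (Set.range b) = ⊤ := by
    rw [eq_top_iff]
    rintro ⟨D, hD⟩ -
    have h1 : (⟨D, hD⟩ : N) = ∑ i, D (u i) • b i := by
      apply Subtype.ext
      rw [Submodule.coe_sum]
      exact hexp D hD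
    rw [h1]
    exact Submodule.sum_mem _ fun i _ => Submodule.smul_mem _ _ (Submodule.subset_span ⟨i, rfl⟩)
  have hblin : LinearIndependent L b := by
    rw [Fintype.linearIndependent_iff]
    intro c hc i
    have h1 := congrArg (fun D : N => (D : Derivation k L L) (u i)) hc
    simp only [Submodule.coe_sum, Submodule.coe_smul, ZeroMemClass.coe_zero,
      Derivation.coe_zero, Pi.zero_apply] at h1
    rw [Pool.Agent.W721.PG.EFF2.der_sum, Finset.sum_eq_single i] at h1
    · have h2 := hE (Sum.inr i) (Sum.inr i)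
      rw [Sum.elim_inr, if_pos rfl] at h2
      change c i * E (Sum.inr i) (u i) = 0 at h1
      rwa [h2, mul_one] at h1
    · intro l _ hl
      have h2 := hE (Sum.inr l) (Sum.inr i)
      rw [Sum.elim_inr, if_neg (fun h => hl (Sum.inr_injective h))] at h2
      change c l * E (Sum.inr l) (u i) = 0
      rw [h2, mul_zero]
    · intro h
      exact absurd (Finset.mem_univ _) h
  let bb : Module.Basis (Fin r) L N := Module.Basis.mk hblin (by rw [hbN])
  have hfdN : FiniteDimensional L N := Module.Finite.of_basis bb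
  have hrN : Module.finrank L N = r := by
    rw [Module.finrank_eq_card_basis bb, Fintype.card_fin]
  -- the dual family
  obtain ⟨J, U', hU1, hU2⟩ := exists_dual_family hrN (fun l : Fin n => (θ l).comp N.subtype)
    (fun x hx => by
      apply Subtype.ext
      have h1 := hP2 (x : Derivation k L L)
      have h2 : ∀ i, θ i (x : Derivation k L L) = 0 := fun i => hx i
      rw [h1]
      refine Finset.sum_eq_zero fun i _ => ?_
      rw [h2 i, zero_smul])
  let U : Fin r → Derivation k L L := fun i => (U' i : Derivation k L L)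
  have hUN : ∀ i, U i ∈ N := fun i => (U' i).2
  have hUθ : ∀ i j, θ (J j) (U i) = if i = j then 1 else 0 := fun i j => hU1 i j
  have hUexp : ∀ D ∈ N, D = ∑ j, θ (J j) D • U j := by
    intro D hD
    have h1 := congrArg (fun x : N => (x : Derivation k L L)) (hU2 ⟨D, hD⟩)
    simp only [Submodule.coe_sum, Submodule.coe_smul] at h1
    exact h1
  -- constants of the distribution
  have hcst : ∀ τ ∈ V, ∀ i, ∀ D ∈ N, D (τ (P i)) = 0 := fun τ hτ i D hD =>
    hkill D hD _ ⟨τ, hτ, i, rfl⟩
  have hcstE : ∀ z : L, (∀ D ∈ N, D z = 0) → ∀ l, ∀ D ∈ N, D (E (Sum.inl l) z) = 0 := by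
    intro z hz l D hD
    have h1 := hz _ (hbr D hD (E (Sum.inl l)) (hEc l))
    rw [Derivation.commutator_apply, hz D hD, map_zero, sub_zero] at h1
    exact h1
  have hcstexp : ∀ z : L, (∀ D ∈ N, D z = 0) → ∀ D : Derivation k L L,
      D z = ∑ j, D (t j) * E (Sum.inl j) z := by
    intro z hz D
    conv_lhs => rw [der_expand hbas hE D]
    rw [Pool.Agent.W721.PG.EFF2.der_sum, Fintype.sum_sum_type]
    have h2 : ∑ i, D ((Sum.elim t u : Fin a ⊕ Fin r → L) (Sum.inr i)) * E (Sum.inr i) z = 0 := by
      refine Finset.sum_eq_zero fun i _ => ?_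
      rw [hz _ (b i).2, mul_zero]
    rw [h2, add_zero]
    rfl
  have hstar := fun (τ : Derivation k L L →ₗ[L] L) (hτ : τ ∈ V) (D D' : Derivation k L L) =>
    star (fun i => hcl _ (hθ i)) hP2 (hcl τ hτ) D D'
  -- the values `θ l (U i)` are constants of the distribution
  have hval : ∀ l i, ∀ D ∈ N, D (θ l (U i)) = 0 := by
    intro l i
    have key : ∀ s, U s (θ l (U i)) = 0 := by
      intro s
      obtain ⟨D2, hD2⟩ : ∃ D2 : Derivation k L L, D2 = ∑ l, U s (θ l (U i)) • P l := ⟨_, rfl⟩
      have hθ2 : ∀ l, θ l D2 = U s (θ l (U i)) := by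
        intro l
        rw [hD2, map_sum, Finset.sum_eq_single l]
        · rw [map_smul, hP1, if_pos rfl, smul_eq_mul, mul_one]
        · intro b _ hb
          rw [map_smul, hP1, if_neg (Ne.symm hb), smul_zero]
        · intro h
          exact absurd (Finset.mem_univ _) h
      have hD2N : D2 ∈ N := by
        intro j
        obtain ⟨τ, hτ, i', hti⟩ := htS j
        rw [hti]
        have h1 := hstar τ hτ D2 (P i')
        have h2 : ∑ i, D2 (τ (P i)) * θ i (P i') = D2 (τ (P i')) := by
          rw [Finset.sum_eq_single i']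
          · rw [hP1, if_pos rfl, mul_one]
          · intro b _ hb
            rw [hP1, if_neg hb, mul_zero]
          · intro h
            exact absurd (Finset.mem_univ _) h
        rw [h2] at h1
        rw [h1]
        simp only [hθ2]
        have h3 : ∀ l, P i' (τ (P l)) = ∑ j, P i' (t j) * E (Sum.inl j) (τ (P l)) := fun l =>
          hcstexp _ (hcst τ hτ l) _
        simp only [h3, Finset.sum_mul]
        rw [Finset.sum_comm]
        refine Finset.sum_eq_zero fun j _ => ?_
        have h4 := hstar τ hτ (U i) (E (Sum.inl j))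
        have h5 : ∑ l, U i (τ (P l)) * θ l (E (Sum.inl j)) = 0 := by
          refine Finset.sum_eq_zero fun l _ => ?_
          rw [hcst τ hτ l _ (hUN i), zero_mul]
        rw [h5] at h4
        have h6 := congrArg (U s) h4
        rw [map_zero, map_sum] at h6
        have h7 : ∀ l, U s (E (Sum.inl j) (τ (P l)) * θ l (U i)) =
            E (Sum.inl j) (τ (P l)) * U s (θ l (U i)) := by
          intro l
          rw [Derivation.leibniz, hcstE _ (hcst τ hτ l) j _ (hUN s), smul_zero, add_zero,
            smul_eq_mul]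
        simp only [h7] at h6
        have h8 : ∀ l, P i' (t j) * E (Sum.inl j) (τ (P l)) * U s (θ l (U i)) =
            P i' (t j) * (E (Sum.inl j) (τ (P l)) * U s (θ l (U i))) := fun l => mul_assoc _ _ _
        simp only [h8]
        rw [← Finset.mul_sum, ← h6, mul_zero]
      have h1 := hUexp D2 hD2N
      have h2 : D2 = 0 := by
        rw [h1]
        refine Finset.sum_eq_zero fun j _ => ?_
        rw [hθ2, hUθ]
        have h3 : U s (if i = j then (1 : L) else 0) = 0 := by
          split_ifs
          · exact Derivation.map_one_eq_zero _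
          · exact map_zero _
        rw [h3, zero_smul]
      rw [← hθ2, h2, map_zero]
    intro D hD
    rw [hUexp D hD, Pool.Agent.W721.PG.EFF2.der_sum]
    refine Finset.sum_eq_zero fun s _ => ?_
    rw [key, mul_zero]
  have hg : ∀ τ ∈ V, ∀ i, ∀ D ∈ N, D (τ (U i)) = 0 := by
    intro τ hτ i D hD
    rw [form_expand hP2 τ (U i), map_sum]
    refine Finset.sum_eq_zero fun l _ => ?_
    rw [Derivation.leibniz, hval l i D hD, hcst τ hτ l D hD, smul_zero, smul_zero, add_zero]
  -- the pole argument
  have hpole : ∀ (h : L) (c : Fin r → L), (∀ i, ∀ D ∈ N, D (c i) = 0) →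
      (∀ D ∈ N, D h = ∑ i, c i * θ (J i) D) → ∀ D ∈ N, D h = 0 := by
    intro h c hc hh
    by_contra hcon
    push Not at hcon
    obtain ⟨D, hD, hDh⟩ := hcon
    obtain ⟨i0, hi0⟩ : ∃ i0, E (Sum.inr i0) h ≠ 0 := by
      by_contra hcon
      push Not at hcon
      apply hDh
      rw [hexp D hD, Pool.Agent.W721.PG.EFF2.der_sum]
      refine Finset.sum_eq_zero fun i _ => ?_
      rw [hcon i, mul_zero]
    obtain ⟨m, hm⟩ : ∃ m, n = m + 1 := by
      refine Nat.exists_eq_succ_of_ne_zero ?_
      rintro rfl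
      have : r = 0 := by omega
      subst this
      exact i0.elim0
    subst hm
    obtain ⟨y, hy, hyZ⟩ := exchange (ι := Fin a ⊕ Fin r) (m := m) (by simp [har]) hbas hn hE hi0
    obtain ⟨Q, s, E0, hQ, hs, hhQ, hE0, hE0s, hE0y⟩ := exists_pole hn hfin hy
    have hE0N : E0 ∈ N := by
      intro j
      obtain ⟨i, hi⟩ := hyZ (Sum.inl j) Sum.inl_ne_inr
      rw [Sum.elim_inl] at hi
      rw [← hi]
      exact hE0y i
    apply pole_log hs hE0 hE0s hhQ
    rw [hh E0 hE0N, Finset.mul_sum]
    refine Ge.sum _ _ fun i _ => ?_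
    have h1 : Q.Reg (c i) := by
      by_contra h1
      unfold Place.Reg at h1
      push Not at h1
      apply pole_der hs hE0 hE0s h1.2
      rw [hc i E0 hE0N]
      exact Q.reg_zero
    have h2 : Q.Reg (θ (J i) (s • E0)) := hlf _ (hθ (J i)) Q hQ (s • E0) (log_smul hs hE0)
    rw [map_smul, smul_eq_mul] at h2
    have h3 : s * (c i * θ (J i) E0) = c i * (s * θ (J i) E0) := by ring
    rw [h3]
    exact Q.reg_mul h1 h2
  -- the values are constants
  have hconst : ∀ τ ∈ V, ∀ i, ∃ c : k, τ (U i) = algebraMap k L c := by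
    intro τ hτ i
    have hτexp : ∀ X ∈ N, τ X = ∑ i, τ (U i) * θ (J i) X := by
      intro X hX
      conv_lhs => rw [hUexp X hX]
      rw [map_sum]
      exact Finset.sum_congr rfl fun i _ => by rw [map_smul, smul_eq_mul, mul_comm]
    have hEl : ∀ l i, E (Sum.inl l) (τ (U i)) = 0 := by
      intro l
      have h1 : ∀ D ∈ N, D (τ (E (Sum.inl l)) - ∑ i, τ (U i) * θ (J i) (E (Sum.inl l))) =
          ∑ i, E (Sum.inl l) (τ (U i)) * θ (J i) D := by
        intro D hD
        have hX := hbr D hD (E (Sum.inl l)) (hEc l)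
        have h2 := hτexp _ hX
        rw [hcl τ hτ] at h2
        have h3 : ∀ i, τ (U i) * θ (J i) ⁅D, E (Sum.inl l)⁆ =
            τ (U i) * D (θ (J i) (E (Sum.inl l))) - τ (U i) * E (Sum.inl l) (θ (J i) D) := by
          intro i
          rw [hcl _ (hθ (J i)), mul_sub]
        simp only [h3] at h2
        rw [hτexp D hD, map_sum] at h2
        have h4 : ∀ i, E (Sum.inl l) (τ (U i) * θ (J i) D) =
            τ (U i) * E (Sum.inl l) (θ (J i) D) + θ (J i) D * E (Sum.inl l) (τ (U i)) := by
          intro i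
          rw [Derivation.leibniz, smul_eq_mul, smul_eq_mul]
        simp only [h4] at h2
        rw [Finset.sum_add_distrib, Finset.sum_sub_distrib] at h2
        rw [map_sub, map_sum]
        have h5 : ∀ i, D (τ (U i) * θ (J i) (E (Sum.inl l))) =
            τ (U i) * D (θ (J i) (E (Sum.inl l))) := by
          intro i
          rw [Derivation.leibniz, hg τ hτ i D hD, smul_zero, add_zero, smul_eq_mul]
        simp only [h5]
        have h6 : ∑ i, E (Sum.inl l) (τ (U i)) * θ (J i) D =
            ∑ i, θ (J i) D * E (Sum.inl l) (τ (U i)) :=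
          Finset.sum_congr rfl fun i _ => mul_comm _ _
        rw [h6]
        linear_combination h2
      have h2 := hpole _ (fun i => E (Sum.inl l) (τ (U i)))
        (fun i D hD => hcstE _ (hg τ hτ i) l D hD) h1
      intro i
      have h3 := h1 (U i) (hUN i)
      rw [h2 _ (hUN i), Finset.sum_eq_single i] at h3
      · rw [hUθ, if_pos rfl, mul_one] at h3
        exact h3.symm
      · intro b _ hb
        rw [hUθ, if_neg (Ne.symm hb), mul_zero]
      · intro h
        exact absurd (Finset.mem_univ _) h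
    apply const_of_all
    intro D
    rw [hcstexp _ (hg τ hτ i) D]
    refine Finset.sum_eq_zero fun j _ => ?_
    rw [hEl, mul_zero]
  have hUc : ∀ i, U i ∈ constFields V := fun i τ hτ => hconst τ hτ i
  have hUlin : LinearIndependent L U := by
    rw [Fintype.linearIndependent_iff]
    intro c hc i
    have h1 := congrArg (θ (J i)) hc
    rw [map_sum, map_zero, Finset.sum_eq_single i] at h1
    · rw [map_smul, hUθ, if_pos rfl, smul_eq_mul, mul_one] at h1
      exact h1
    · intro l _ hl
      rw [map_smul, hUθ, if_neg hl, smul_zero]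
    · intro h
      exact absurd (Finset.mem_univ _) h
  -- all fields in `constFields V` belong to the distribution
  have htang : ∀ D ∈ constFields V, D ∈ N := by
    intro D hD j
    obtain ⟨τ, hτ, i, hti⟩ := htS j
    rw [hti]
    have h1 := hstar τ hτ D (P i)
    have h2 : ∑ l, D (τ (P l)) * θ l (P i) = D (τ (P i)) := by
      rw [Finset.sum_eq_single i]
      · rw [hP1, if_pos rfl, mul_one]
      · intro b _ hb
        rw [hP1, if_neg hb, mul_zero]
      · intro h
        exact absurd (Finset.mem_univ _) h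
    rw [h2] at h1
    rw [h1]
    obtain ⟨c, hc⟩ := hD τ hτ
    have h3 := congrArg (P i) (form_expand hP2 τ D)
    rw [hc, Derivation.map_algebraMap, map_sum] at h3
    rw [h3]
    refine Finset.sum_congr rfl fun l _ => ?_
    obtain ⟨c', hc'⟩ := hD (θ l) (hθ l)
    rw [Derivation.leibniz, hc', Derivation.map_algebraMap, smul_zero, add_zero, smul_eq_mul,
      mul_comm]
  have hUk : LinearIndependent k U := by
    rw [Fintype.linearIndependent_iff] at hUlin ⊢
    intro c hc i
    have h1 := hUlin (fun i => algebraMap k L (c i)) (by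
      rw [← hc]
      refine Finset.sum_congr rfl fun i _ => ?_
      ext z
      simp [Algebra.smul_def]) i
    exact (map_eq_zero _).1 h1
  have hspan : Submodule.span k (Set.range U) = constFields V := by
    apply le_antisymm
    · rw [Submodule.span_le]
      rintro _ ⟨i, rfl⟩
      exact hUc i
    · intro D hD
      have h1 := hUexp D (htang D hD)
      rw [h1]
      refine Submodule.sum_mem _ fun i _ => ?_
      obtain ⟨c, hc⟩ := hD _ (hθ (J i))
      have h2 : θ (J i) D • U i = c • U i := by
        rw [hc]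
        ext z
        simp [Algebra.smul_def]
      rw [h2]
      exact Submodule.smul_mem _ _ (Submodule.subset_span ⟨i, rfl⟩)
  refine ⟨a, r, t, P, U, har, hbas.1.comp _ Sum.inl_injective, hP1, hP2, htS, hUc,
    fun i j => hUN i j, fun D hD => ⟨_, hUexp D hD⟩, hUlin, ?_⟩
  rw [← hspan, finrank_span_eq_card hUk, Fintype.card_fin]

end Pool.Agent.Y173.QL
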