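import Pool.Agent.Y173.QL.Pol
import Pool.Agent.Y173.QA.NumU

/-! The numerical dimension of `K + D` is at most the number of the base coordinates, if the
constant vector fields are regular on a model and tangent to `D`. -/

set_option autoImplicit false
set_option linter.overlappingInstances false
set_option linter.unusedSectionVars false

open FF IntermediateField Pool.Agent.W619.PQ Pool.Agent.W619.PL Pool.Agent.W619.TW
  Pool.Agent.W603.LV Pool.Agent.W619.Y Pool.Agent.TH122.AB Pool.Agent.Y173.QA MvPolynomial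

namespace Pool.Agent.Y173.QL

variable {k : Type} [Field k] [CharZero k] {L : Type} [Field L] [Algebra k L]

/-- logarithmic lifts of the vector fields of the base at the horizontal places -/
theorem hor_log {a r : ℕ} (htr : Algebra.trdeg k L = (a + r : ℕ))
    (hfin : ∀ y : Fin (a + r) → L, IsTranscendenceBasis k y →
      FiniteDimensional (IntermediateField.adjoin k (Set.range y)) L)
    {t : Fin a → L} {B : Set L} {x : Fin r → L} (hch : Chart k t B x)
    {p : MvPolynomial (Fin (a + r)) k} {l0 : Fin r}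
    (hl0 : degreeOf (Fin.natAdd a l0) p ≠ 0) {P : Place k L}
    (hP : Adic (Fin.append t x) p P) :
    ∃ F : Fin a → Derivation k L L,
      (∀ j f, P.Reg (F j f / f)) ∧ ∀ j l, F j (t l) = if j = l then 1 else 0 := by
  classical
  obtain ⟨r', rfl⟩ : ∃ r', r = r' + 1 := Nat.exists_eq_succ_of_ne_zero (by
    rintro rfl
    exact l0.elim0)
  let b0 : Fin ((a + r') + 1) := Fin.natAdd a l0
  let Z : Fin ((a + r') + 1) → L := (Fin.append t x : Fin (a + (r' + 1)) → L)
  let y : Fin (a + r') → L := fun j => Z (b0.succAbove j)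
  have hy : ∀ q : MvPolynomial (Fin (a + r')) k, q ≠ 0 →
      aeval y q ≠ 0 ∧ P.ord (aeval y q) = 0 := by
    intro q hq
    have h0 : rename b0.succAbove q ≠ 0 :=
      (map_ne_zero_iff _ (rename_injective _ Fin.succAbove_right_injective)).2 hq
    have h1 : aeval Z (rename b0.succAbove q) = aeval y q := by
      rw [aeval_rename]
      rfl
    have h2 := (hP (rename b0.succAbove q) h0).2.2 (not_dvd_succAbove (b := b0) hl0 hq)
    change P.ord (aeval Z (rename b0.succAbove q)) = 0 at h2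
    rw [h1] at h2
    refine ⟨?_, h2⟩
    rw [← h1]
    intro h3
    exact h0 ((injective_iff_map_eq_zero _).1 hch.bas.1 _ h3)
  obtain ⟨s, hs0, hs⟩ := P.surj
  obtain ⟨-, E, hE1, hE2⟩ := frame_of (m := a + r') htr hfin P hs hy
  have hne : ∀ j : Fin a, (Fin.castAdd (r' + 1) j : Fin ((a + r') + 1)) ≠ b0 := by
    intro j h
    have h1 := congrArg Fin.val h
    change (j : ℕ) = a + (l0 : ℕ) at h1
    have := j.2
    omega
  choose j' hj' using fun j : Fin a => Fin.exists_succAbove_eq (hne j)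
  refine ⟨fun j => E (j' j).succ, fun j f => ?_, fun j l => ?_⟩
  · refine log_of_pres P _ (hE2 _) hs0 hs ?_ f
    have h1 := hE1 (j' j).succ 0
    rw [Fin.cons_zero, if_neg (Fin.succ_ne_zero _)] at h1
    rw [h1, zero_div]
    exact P.reg_zero
  have h1 := hE1 (j' j).succ (j' l).succ
  rw [Fin.cons_succ] at h1
  have h2 : y (j' l) = t l := by
    change Z (b0.succAbove (j' l)) = t l
    rw [hj']
    exact Fin.append_left t x l
  rw [h2] at h1
  rw [h1]
  have h3 : (j' j).succ = (j' l).succ ↔ j = l := by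
    rw [Fin.succ_inj]
    constructor
    · intro h4
      have h5 := congrArg b0.succAbove h4
      rw [hj', hj'] at h5
      exact Fin.castAdd_injective a (r' + 1) h5
    · rintro rfl
      rfl
  by_cases hjl : j = l
  · rw [if_pos hjl, if_pos (h3.2 hjl)]
  · rw [if_neg hjl, if_neg (fun h => hjl (h3.1 h))]

theorem dom_hor {a r : ℕ} (htr : Algebra.trdeg k L = (a + r : ℕ))
    (hfin : ∀ y : Fin (a + r) → L, IsTranscendenceBasis k y →
      FiniteDimensional (IntermediateField.adjoin k (Set.range y)) L)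
    {t : Fin a → L} {B : Set L} {x : Fin r → L} (hch : Chart k t B x)
    (htop : IntermediateField.adjoin k B = ⊤) {U : Fin r → Derivation k L L}
    (hUt : ∀ i j, U i (t j) = 0) (hUB : ∀ i, ∀ b ∈ B, U i b ∈ Algebra.adjoin k B)
    (hUspan : ∀ D : Derivation k L L, (∀ j, D (t j) = 0) → ∃ c : Fin r → L, D = ∑ i, c i • U i)
    {F : Fin a → Derivation k L L} (hF : ∀ j l, F j (t l) = if j = l then 1 else 0)
    (Bd : Place k L → Prop)
    (hBd : ∀ P, Bd P → IsDivisorial P (a + r) → ∀ i, Pres P (U i) → ∀ f, P.Reg (U i f / f))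
    {S : Finset L} {m : ℕ} {ω : (Fin (a + r) → Derivation k L L) → L}
    (hω : IsSec k L (a + r) Bd S m 1 ω)
    {p : MvPolynomial (Fin (a + r)) k} (hp : Irreducible p) (hpv : ¬ Vert p) {P : Place k L}
    (hP : Adic (Fin.append t x) p P) : Dom P S 1 (ω (Fin.append F U)) := by
  obtain ⟨l0, hl0⟩ := exists_of_not_vert hpv
  obtain ⟨hdiv, hU, F', hF', hF't⟩ := hor htr hfin hch htop hUt hUB hp hl0 hP
  by_cases hB : Bd P
  · obtain ⟨F2, hF2, hF2t⟩ := hor_log htr hfin hch hl0 hP
    rw [phi_eq hUspan hω.1 (F := F) (F' := F2) fun j l => by rw [hF, hF2t]]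
    refine hω.2.2 P hdiv hB _ fun l => ?_
    refine Fin.addCases (fun j => ?_) (fun j => ?_) l
    · rw [Fin.append_left]
      exact hF2 j
    · rw [Fin.append_right]
      exact hBd P hB hdiv j (hU j)
  · rw [phi_eq hUspan hω.1 (F := F) (F' := F') fun j l => by rw [hF, hF't]]
    refine hω.2.1 P hdiv hB _ fun l => ?_
    refine Fin.addCases (fun j => ?_) (fun j => ?_) l
    · rw [Fin.append_left]
      exact hF' j
    · rw [Fin.append_right]
      exact hU j


/-- linear lower bound for the orders of the sections at a divisorial place -/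
theorem lin_bound {K' : Type} [Field K'] [Algebra k K'] {n : ℕ} (htr : Algebra.trdeg k K' = n)
    (hfin : ∀ y : Fin n → K', IsTranscendenceBasis k y →
      FiniteDimensional (IntermediateField.adjoin k (Set.range y)) K')
    {w : Place k K'} (hw : IsDivisorial w n) (E : Fin n → Derivation k K' K') (S : Finset K')
    (c : K') (Bd : Place k K' → Prop) :
    ∃ C : ℕ, ∀ (m : ℕ) (ω : (Fin n → Derivation k K' K') → K'), 1 ≤ m →
      IsSec k K' n Bd S m 1 ω → Ge w (-((C * m : ℕ) : ℤ)) (c ^ m * ω E) := by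
  classical
  obtain ⟨y, F, i0, hy, hFy, hi0, hyreg, hF⟩ := pFRAME k K' n htr hfin w hw
  obtain ⟨M, hM⟩ : ∃ M : Matrix (Fin n) (Fin n) K', M = Matrix.of fun b c => E b (y c) := ⟨_, rfl⟩
  have hEF : E = fun b => ∑ c, M b c • F c := by
    funext b
    rw [der_expand hy hFy (E b), hM]
    rfl
  obtain ⟨u, hu0, hu⟩ := w.surj
  obtain ⟨C, hC⟩ : ∃ C : ℕ, (w.ord c).natAbs + (w.ord M.det).natAbs +
    ∑ s ∈ S, (w.ord s).natAbs + n ≤ C := ⟨_, le_rfl⟩
  refine ⟨C, fun m ω hm hω => ?_⟩
  have h1 := hω.1 M F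
  rw [← hEF] at h1
  rw [h1]
  by_cases hc0 : c = 0
  · left
    rw [hc0, zero_pow (by omega), zero_mul]
  by_cases hM0 : M.det = 0
  · left
    rw [hM0, zero_pow (by omega), zero_mul, mul_zero]
  by_cases hF0 : ω F = 0
  · left
    rw [hF0, mul_zero, mul_zero]
  obtain ⟨s, hs, hs0, hle⟩ : ∃ s ∈ S, s ≠ 0 ∧ ((1 : ℕ) : ℤ) * w.ord s ≤ w.ord (ω F) + n * m := by
    by_cases hB : Bd w
    · have h2 := hω.2.2 w hw hB (fun i => u • F i) fun l f => log_smul hu (hF l) f
      rw [phi_smul hω.1] at h2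
      obtain ⟨s, hs, hs0, hle⟩ := h2.resolve_left (mul_ne_zero (pow_ne_zero _
        (pow_ne_zero _ hu0)) hF0)
      refine ⟨s, hs, hs0, ?_⟩
      rw [w.ord_mul (pow_ne_zero _ (pow_ne_zero _ hu0)) hF0, w.ord_pow, w.ord_pow, hu] at hle
      linarith
    · obtain ⟨s, hs, hs0, hle⟩ := (hω.2.1 w hw hB F hF).resolve_left hF0
      refine ⟨s, hs, hs0, hle.trans ?_⟩
      have : (0 : ℤ) ≤ n * m := by positivity
      linarith
  right
  rw [w.ord_mul (pow_ne_zero _ hc0) (mul_ne_zero (pow_ne_zero _ hM0) hF0),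
    w.ord_mul (pow_ne_zero _ hM0) hF0, w.ord_pow, w.ord_pow]
  have h2 : (w.ord s).natAbs ≤ ∑ s ∈ S, (w.ord s).natAbs :=
    Finset.single_le_sum (f := fun s => (w.ord s).natAbs) (fun _ _ => Nat.zero_le _) hs
  have h3 : ((w.ord c).natAbs : ℤ) + (w.ord M.det).natAbs + (w.ord s).natAbs + n ≤ C := by
    exact_mod_cast (by omega : (w.ord c).natAbs + (w.ord M.det).natAbs + (w.ord s).natAbs + n ≤ C)
  have h4 : -((w.ord c).natAbs : ℤ) ≤ w.ord c := by omega
  have h5 : -((w.ord M.det).natAbs : ℤ) ≤ w.ord M.det := by omega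
  have h6 : -((w.ord s).natAbs : ℤ) ≤ w.ord s := by omega
  have hm' : (1 : ℤ) ≤ m := by exact_mod_cast hm
  push_cast at hle ⊢
  have h7 : (C : ℤ) * m ≥ (((w.ord c).natAbs : ℤ) + (w.ord M.det).natAbs +
      (w.ord s).natAbs + n) * m := mul_le_mul_of_nonneg_right h3 (by linarith)
  have h8 : (m : ℤ) * (-((w.ord c).natAbs : ℤ)) ≤ m * w.ord c :=
    mul_le_mul_of_nonneg_left h4 (by linarith)
  have h9 : (m : ℤ) * (-((w.ord M.det).natAbs : ℤ)) ≤ m * w.ord M.det :=
    mul_le_mul_of_nonneg_left h5 (by linarith)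
  have h10 : ((w.ord s).natAbs : ℤ) * 1 ≤ ((w.ord s).natAbs : ℤ) * m :=
    mul_le_mul_of_nonneg_left hm' (by positivity)
  nlinarith


/-- the poles at the places which are trivial on the base coordinates are bounded -/
theorem x_inf {a r N : ℕ} (htr : Algebra.trdeg k L = (a + r : ℕ))
    (hfin : ∀ y : Fin (a + r) → L, IsTranscendenceBasis k y →
      FiniteDimensional (IntermediateField.adjoin k (Set.range y)) L)
    {t : Fin a → L} (ht : AlgebraicIndependent k t) {z : Fin (N + 1) → L} (hz0 : ∀ i, z i ≠ 0)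
    (htop : ∀ i, IntermediateField.adjoin k (Set.range fun j => z j / z i) = ⊤)
    {U : Fin r → Derivation k L L} (hUt : ∀ i j, U i (t j) = 0)
    (hUB : ∀ l i j, U l (z j / z i) ∈ Algebra.adjoin k (Set.range fun j => z j / z i))
    (hUspan : ∀ D : Derivation k L L, (∀ j, D (t j) = 0) → ∃ c : Fin r → L, D = ∑ i, c i • U i)
    {F : Fin a → Derivation k L L} (hF : ∀ j l, F j (t l) = if j = l then 1 else 0)
    (Bd : Place k L → Prop)
    (hBd : ∀ P, Bd P → IsDivisorial P (a + r) → ∀ i, Pres P (U i) → ∀ f, P.Reg (U i f / f))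
    (S : Finset L) (w : Place k L)
    (hq : ∀ q : MvPolynomial (Fin a) k, q ≠ 0 → w.ord (aeval t q) = 0) :
    ∃ c : ℕ, ∀ (m : ℕ) (ω : (Fin (a + r) → Derivation k L L) → L),
      IsSec k L (a + r) Bd S m 1 ω → Ge w (-(c : ℤ)) (ω (Fin.append F U)) := by
  classical
  obtain ⟨i, hi⟩ := Finite.exists_min fun i => w.ord (z i)
  obtain ⟨x, hch⟩ := exists_chart htr ht (Set.finite_range fun j => z j / z i) (htop i)
  have hZ := hch.bas
  have hBw : ∀ b ∈ Set.range (fun j => z j / z i), w.Reg b := by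
    rintro _ ⟨j, rfl⟩
    right
    change 0 ≤ w.ord (z j / z i)
    rw [w.ord_div (hz0 j) (hz0 i)]
    have := hi j
    linarith
  have hxw' : ∀ y ∈ Algebra.adjoin (IntermediateField.adjoin k (Set.range t))
      (Set.range fun j => z j / z i), w.Reg y := by
    intro y hy
    induction hy using Algebra.adjoin_induction with
    | mem y hy => exact hBw y hy
    | algebraMap c => exact Or.inr (ord_base hq c.2).ge
    | add y y' _ _ hy hy' => exact w.reg_add hy hy'
    | mul y y' _ _ hy hy' => exact w.reg_mul hy hy'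
  have hxw : ∀ l, w.Reg (x l) := fun l => hxw' _ (hch.mem l)
  -- the common denominator of `S`
  choose q hq0 hqi using fun s : L => exists_mult hZ s
  obtain ⟨Q, hQ⟩ : ∃ Q, Q = ∏ s ∈ S, q s := ⟨_, rfl⟩
  have hQ0 : Q ≠ 0 := by
    rw [hQ]
    exact Finset.prod_ne_zero_iff.2 fun s _ => hq0 _
  have hQZ : aeval (Fin.append t x) Q ≠ 0 := fun h0 =>
    hQ0 ((injective_iff_map_eq_zero _).1 hZ.1 _ h0)
  have hQS : ∀ s ∈ S, ∀ P : Place k L,
      (∀ f : MvPolynomial (Fin (a + r)) k, P.Reg (aeval (Fin.append t x) f)) →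
      P.Reg (aeval (Fin.append t x) Q * s) := by
    intro s hs P hP
    rw [hQ, ← Finset.mul_prod_erase S q hs, map_mul, mul_comm (aeval _ (q s)), mul_assoc]
    exact P.reg_mul (hP _) (reg_of_int hP (hqi s))
  refine ⟨(w.ord (aeval (Fin.append t x) Q)).natAbs, fun m ω hω => ?_⟩
  have h1 : w.Reg (aeval (Fin.append t x) Q * ω (Fin.append F U)) := by
    refine hartogs hZ (hfin _ hZ) (fun p hp hpv P hP => ?_) hq hxw
    have h2 := dom_hor htr hfin hch (htop i) hUt (fun l b hb => by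
      obtain ⟨j, rfl⟩ := hb
      exact hUB l i j) hUspan hF Bd hBd hω hp hpv hP
    rcases h2 with h2 | ⟨s, hs, hs0, h2⟩
    · rw [h2, mul_zero]
      exact P.reg_zero
    · by_cases h0 : ω (Fin.append F U) = 0
      · rw [h0, mul_zero]
        exact P.reg_zero
      have h3 := (hQS s hs P (adic_reg hP)).resolve_left (mul_ne_zero hQZ hs0)
      right
      rw [P.ord_mul hQZ hs0] at h3
      rw [P.ord_mul hQZ h0]
      push_cast at h2
      linarith
  by_cases h0 : ω (Fin.append F U) = 0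
  · exact Or.inl h0
  right
  have h2 := h1.resolve_left (mul_ne_zero hQZ h0)
  rw [w.ord_mul hQZ h0] at h2
  omega


theorem numLe_U {a r N : ℕ} (har : 0 < a + r) (htr : Algebra.trdeg k L = (a + r : ℕ))
    (hfin : ∀ y : Fin (a + r) → L, IsTranscendenceBasis k y →
      FiniteDimensional (IntermediateField.adjoin k (Set.range y)) L)
    {t : Fin a → L} (ht : AlgebraicIndependent k t) {z : Fin (N + 1) → L} (hz0 : ∀ i, z i ≠ 0)
    (htop : ∀ i, IntermediateField.adjoin k (Set.range fun j => z j / z i) = ⊤)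
    {U : Fin r → Derivation k L L} (hUt : ∀ i j, U i (t j) = 0)
    (hUB : ∀ l i j, U l (z j / z i) ∈ Algebra.adjoin k (Set.range fun j => z j / z i))
    (hUspan : ∀ D : Derivation k L L, (∀ j, D (t j) = 0) → ∃ c : Fin r → L, D = ∑ i, c i • U i)
    (Bd : Place k L → Prop)
    (hBd : ∀ P, Bd P → IsDivisorial P (a + r) → ∀ i, Pres P (U i) → ∀ f, P.Reg (U i f / f))
    (hBfin : ∀ Z : Fin (a + r) → L, IsTranscendenceBasis k Z →
      ∃ q : MvPolynomial (Fin (a + r)) k, q ≠ 0 ∧ ∀ p : MvPolynomial (Fin (a + r)) k,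
        Irreducible p → ∀ P : Place k L, Adic Z p P → Bd P → p ∣ q) :
    NumLe k L (a + r) Bd a := by
  classical
  intro S
  obtain ⟨x, hch⟩ := exists_chart htr ht (Set.finite_range fun j => z j / z 0) (htop 0)
  have hZ := hch.bas
  have hne : ∀ f : MvPolynomial (Fin (a + r)) k, f ≠ 0 → aeval (Fin.append t x) f ≠ 0 :=
    fun f hf h0 => hf ((injective_iff_map_eq_zero _).1 hZ.1 f h0)
  obtain ⟨E, hE0⟩ := Pool.Agent.W602.GT.exists_dual hZ
  have hE : ∀ i j, E i (Fin.append t x j) = if i = j then 1 else 0 := by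
    intro i j
    have h1 := congrFun (congrFun hE0 i) j
    rw [Matrix.of_apply, Matrix.one_apply] at h1
    exact h1
  obtain ⟨F, hFdef⟩ : ∃ F : Fin a → Derivation k L L, ∀ j, F j = E (Fin.castAdd r j) :=
    ⟨_, fun _ => rfl⟩
  have hF : ∀ j l, F j (t l) = if j = l then 1 else 0 := by
    intro j l
    have h1 := hE (Fin.castAdd r j) (Fin.castAdd r l)
    rw [Fin.append_left] at h1
    rw [hFdef, h1]
    by_cases hjl : j = l
    · rw [if_pos hjl, if_pos (by rw [hjl])]
    · rw [if_neg hjl, if_neg fun h => hjl (Fin.castAdd_injective a r h)]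
  obtain ⟨Φ, hΦdef⟩ : ∃ Φ : Fin (a + r) → Derivation k L L, Φ = Fin.append F U := ⟨_, rfl⟩
  have hΦspan : ∀ D : Derivation k L L, ∃ c : Fin (a + r) → L, D = ∑ i, c i • Φ i := by
    intro D
    obtain ⟨c, hc⟩ := hUspan (D - ∑ j, D (t j) • F j) fun l => by
      rw [Derivation.sub_apply, sum_der, Finset.sum_eq_single l]
      · rw [hF, if_pos rfl, mul_one, sub_self]
      · intro j _ hj
        rw [hF, if_neg hj, mul_zero]
      · intro hl
        exact absurd (Finset.mem_univ _) hl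
    refine ⟨Fin.append (fun j => D (t j)) c, ?_⟩
    rw [Fin.sum_univ_add, hΦdef]
    simp only [Fin.append_left, Fin.append_right]
    rw [← hc]
    abel
  -- clearing the poles of the frame
  choose Qc hQc0 hQc using fun i => exists_clear hZ (hfin _ hZ) (Φ i)
  obtain ⟨Q1, hQ1⟩ : ∃ Q1, Q1 = ∏ i, Qc i := ⟨_, rfl⟩
  have hQ10 : Q1 ≠ 0 := by
    rw [hQ1]
    exact Finset.prod_ne_zero_iff.2 fun i _ => hQc0 i
  obtain ⟨qB, hqB0, hqB⟩ := hBfin _ hZ
  obtain ⟨Q, hQ⟩ : ∃ Q, Q = qB * Q1 := ⟨_, rfl⟩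
  have hQ0 : Q ≠ 0 := by
    rw [hQ]
    exact mul_ne_zero hqB0 hQ10
  have hQ1pres : ∀ p : MvPolynomial (Fin (a + r)) k, Irreducible p → ∀ P : Place k L,
      Adic (Fin.append t x) p P → ∀ i, Pres P (aeval (Fin.append t x) Q1 • Φ i) := by
    intro p hp P hP i f hf
    rw [hQ1, ← Finset.mul_prod_erase Finset.univ Qc (Finset.mem_univ i), map_mul,
      Derivation.smul_apply, smul_eq_mul, mul_comm (aeval _ (Qc i)), mul_assoc]
    refine P.reg_mul (adic_reg hP _) ?_
    have h1 := hQc i p hp P hP f hf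
    rw [Derivation.smul_apply, smul_eq_mul] at h1
    exact h1
  have hQsm : ∀ i, aeval (Fin.append t x) Q • Φ i =
      aeval (Fin.append t x) qB • (aeval (Fin.append t x) Q1 • Φ i) := by
    intro i
    rw [hQ, map_mul, mul_smul]
  have hQpres : ∀ p : MvPolynomial (Fin (a + r)) k, Irreducible p → ∀ P : Place k L,
      Adic (Fin.append t x) p P → ∀ i, Pres P (aeval (Fin.append t x) Q • Φ i) := by
    intro p hp P hP i f hf
    rw [hQsm, Derivation.smul_apply, smul_eq_mul]
    exact P.reg_mul (adic_reg hP _) (hQ1pres p hp P hP i f hf)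
  have hQlog : ∀ p : MvPolynomial (Fin (a + r)) k, Irreducible p → ∀ P : Place k L,
      Adic (Fin.append t x) p P → Bd P → ∀ i f,
        P.Reg ((aeval (Fin.append t x) Q • Φ i) f / f) := by
    intro p hp P hP hB i f
    rw [hQsm]
    refine log_smul_of (hQ1pres p hp P hP i) ?_ f
    obtain ⟨h1, h2⟩ := hP qB hqB0
    right
    have h3 : P.ord (aeval (Fin.append t x) qB) ≠ 0 := fun h4 => h2.1 h4 (hqB p hp P hP hB)
    omega
  obtain ⟨r0, R', hr0, hQR, hR'⟩ := exists_vert_part hQ0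
  have hr00 : r0 ≠ 0 := by
    rintro rfl
    exact hQ0 (by rw [hQR, zero_mul])
  have hR'0 : R' ≠ 0 := by
    rintro rfl
    exact hQ0 (by rw [hQR, mul_zero])
  obtain ⟨ρ, hρ⟩ : ∃ ρ : L, ρ = aeval (Fin.append t x) r0 ^ (a + r) := ⟨_, rfl⟩
  have hρ0 : ρ ≠ 0 := by
    rw [hρ]
    exact pow_ne_zero _ (hne _ hr00)
  -- the poles at the finite places
  have hfine : ∀ (m : ℕ) (ω : (Fin (a + r) → Derivation k L L) → L),
      IsSec k L (a + r) Bd S m 1 ω → ∀ p : MvPolynomial (Fin (a + r)) k,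
      Irreducible p → ∀ P : Place k L, Adic (Fin.append t x) p P → Dom P S 1 (ρ ^ m * ω Φ) := by
    intro m ω hω p hp P hP
    by_cases hpv : Vert p
    · have h1 : Dom P S 1 (ω fun i => aeval (Fin.append t x) Q • Φ i) := by
        by_cases hB : Bd P
        · exact hω.2.2 P (adic_div hZ.1 hp hP) hB
            (fun i => aeval (Fin.append t x) Q • Φ i) (hQlog p hp P hP hB)
        · exact hω.2.1 P (adic_div hZ.1 hp hP) hB
            (fun i => aeval (Fin.append t x) Q • Φ i) (hQpres p hp P hP)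
      rw [phi_smul hω.1] at h1
      have h2 : (aeval (Fin.append t x) Q ^ (a + r)) ^ m * ω Φ =
          (aeval (Fin.append t x) R' ^ (a + r)) ^ m * (ρ ^ m * ω Φ) := by
        rw [hQR, map_mul, hρ]
        ring
      rw [h2] at h1
      have h3 : P.ord (aeval (Fin.append t x) R') = 0 := (hP R' hR'0).2.2 (hR' p hp hpv)
      have h4 : (aeval (Fin.append t x) R' ^ (a + r)) ^ m ≠ 0 :=
        pow_ne_zero _ (pow_ne_zero _ (hne R' hR'0))
      have h5 : P.Reg ((aeval (Fin.append t x) R' ^ (a + r)) ^ m)⁻¹ := by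
        right
        rw [P.ord_inv, P.ord_pow, P.ord_pow, h3]
        simp
      have h6 := dom_mul_reg h1 h5
      rwa [← mul_assoc, inv_mul_cancel₀ h4, one_mul] at h6
    · have h1 := dom_hor htr hfin hch (htop 0) hUt (fun l b hb => by
        obtain ⟨j, rfl⟩ := hb
        exact hUB l 0 j) hUspan hF Bd hBd hω hp hpv hP
      rw [← hΦdef] at h1
      refine dom_mul_reg h1 ?_
      rw [hρ, ← map_pow, ← map_pow]
      exact adic_reg hP _
  -- the infinite places
  obtain ⟨T, hTfin, hTdeg, C, c, hC⟩ := count_L har hZ (hfin _ hZ) S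
  have hinf1 : ∀ j : Fin a, ∃ c1 : ℕ, ∀ P ∈ T (Fin.castAdd r j), ∀ (m : ℕ)
      (ω : (Fin (a + r) → Derivation k L L) → L), 1 ≤ m →
        IsSec k L (a + r) Bd S m 1 ω →
          Ge P (-((c1 * m : ℕ) : ℤ)) (ρ ^ m * ω Φ) := by
    intro j
    refine bdd_of_finite (hTfin _) (fun P c1 => ∀ (m : ℕ)
      (ω : (Fin (a + r) → Derivation k L L) → L), 1 ≤ m →
        IsSec k L (a + r) Bd S m 1 ω →
          Ge P (-((c1 * m : ℕ) : ℤ)) (ρ ^ m * ω Φ)) ?_ ?_
    · intro P c1 c2 hle h m ω hm hω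
      refine (h m ω hm hω).mono ?_
      have := Nat.mul_le_mul_right m hle
      push_cast
      have h1 : (c1 : ℤ) * m ≤ c2 * m := by exact_mod_cast this
      linarith
    · intro P hP
      obtain ⟨e, he, hdeg⟩ := hTdeg _ P hP
      have hdiv : IsDivisorial P (a + r) := div_of_deg hZ.1 fun f hf hf0 => by
        rw [hdeg f hf, hf0]
        simp
      exact lin_bound htr hfin hdiv Φ S ρ Bd
  have hinf2 : ∀ l : Fin r, ∃ c2 : ℕ, ∀ P ∈ T (Fin.natAdd a l), ∀ (m : ℕ)
      (ω : (Fin (a + r) → Derivation k L L) → L),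
        IsSec k L (a + r) Bd S m 1 ω → Ge P (-(c2 : ℤ)) (ρ ^ m * ω Φ) := by
    intro l
    refine bdd_of_finite (hTfin _) (fun P c2 => ∀ (m : ℕ)
      (ω : (Fin (a + r) → Derivation k L L) → L),
        IsSec k L (a + r) Bd S m 1 ω → Ge P (-(c2 : ℤ)) (ρ ^ m * ω Φ)) ?_ ?_
    · intro P c1 c2 hle h m ω hω
      refine (h m ω hω).mono ?_
      have : (c1 : ℤ) ≤ c2 := by exact_mod_cast hle
      linarith
    · intro P hP
      obtain ⟨e, he, hdeg⟩ := hTdeg _ P hP
      have hvert : ∀ f : MvPolynomial (Fin (a + r)) k, f ≠ 0 → Vert f →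
          P.ord (aeval (Fin.append t x) f) = 0 := by
        intro f hf hfv
        rw [hdeg f hf, degreeOf_vert hfv]
        simp
      obtain ⟨c2, hc2⟩ := x_inf htr hfin ht hz0 htop hUt hUB hUspan hF Bd hBd S P (fun q hq => by
        rw [← aeval_append_vert t x]
        exact hvert _ ((map_ne_zero_iff _
          (rename_injective _ (Fin.castAdd_injective a r))).2 hq) ⟨q, rfl⟩)
      refine ⟨c2, fun m ω hω => ?_⟩
      have h1 := hc2 m ω hω
      rw [← hΦdef] at h1
      have h2 : Ge P 0 (ρ ^ m) := by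
        right
        rw [hρ, P.ord_pow, P.ord_pow, hvert r0 hr00 hr0]
        simp
      have h3 := h2.mul h1
      rwa [zero_add] at h3
  choose c1 hc1 using hinf1
  choose c2 hc2 using hinf2
  -- the count
  refine ⟨C * ((∏ j, (c1 j + c)) * ∏ l, (c2 l + c)), fun m N' hm hind => ?_⟩
  obtain ⟨ω, hlin, hsec⟩ := hind
  have h1 := hC (Fin.append (fun j => c1 j * m) c2) N' (fun l => ρ ^ m * ω l Φ)
    (lin_frame hΦspan hlin (fun l => (hsec l).1) (pow_ne_zero _ hρ0))
    (fun l p hp P hP => hfine m (ω l) (hsec l) p hp P hP) (by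
      intro l b
      refine Fin.addCases (fun j P hP => ?_) (fun j P hP => ?_) b
      · rw [Fin.append_left]
        exact hc1 j P hP m (ω l) hm (hsec l)
      · rw [Fin.append_right]
        exact hc2 j P hP m (ω l) (hsec l))
  refine h1.trans ?_
  rw [Fin.prod_univ_add]
  simp only [Fin.append_left, Fin.append_right]
  have h2 : ∏ j, (c1 j * m + c) ≤ (∏ j, (c1 j + c)) * m ^ a := by
    have h3 : (∏ j, (c1 j + c)) * m ^ a = ∏ j : Fin a, ((c1 j + c) * m) := by
      rw [Finset.prod_mul_distrib, Finset.prod_const, Finset.card_univ, Fintype.card_fin]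
    rw [h3]
    refine Finset.prod_le_prod' fun j _ => ?_
    have := Nat.le_mul_of_pos_right c hm
    nlinarith
  calc C * ((∏ j, (c1 j * m + c)) * ∏ l, (c2 l + c))
      ≤ C * (((∏ j, (c1 j + c)) * m ^ a) * ∏ l, (c2 l + c)) :=
        Nat.mul_le_mul_left _ (Nat.mul_le_mul_right _ h2)
    _ = C * ((∏ j, (c1 j + c)) * ∏ l, (c2 l + c)) * m ^ a := by ring


end Pool.Agent.Y173.QL
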