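import Pool.Agent.Y173.QL.KodB
import Pool.Agent.Y173.QL.Num
import Pool.Agent.Y173.QA.MainU

/-! Kodaira dimension and numerical dimension of the logarithmic canonical divisor of quotients of
varieties with many closed logarithmic 1-forms. -/

set_option autoImplicit false
set_option linter.overlappingInstances false
set_option linter.unusedSectionVars false

open FF IntermediateField Pool.Agent.W619.PQ Pool.Agent.W619.PL Pool.Agent.W619.TW
  Pool.Agent.W603.LV Pool.Agent.W619.Y Pool.Agent.Y173.QA

namespace Pool.Agent.Y173.QL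

theorem numLe_point {k L : Type} [Field k] [CharZero k] [IsAlgClosed k] [Field L] [Algebra k L]
    (hn : Algebra.trdeg k L = (0 : ℕ)) (Bd : Place k L → Prop) : NumLe k L 0 Bd 0 := by
  classical
  have halg : Algebra.IsAlgebraic k L := by
    rw [← trdeg_eq_zero_iff, hn, Nat.cast_zero]
  have hint : Algebra.IsIntegral k L := inferInstance
  have hbij := IsAlgClosed.algebraMap_bijective_of_isIntegral (k := k) (K := L)
  have hfd : Module.Finite k L := Module.Finite.of_surjective (Algebra.linearMap k L) hbij.2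
  intro S
  refine ⟨Module.finrank k L, fun m N hm hind => ?_⟩
  obtain ⟨ω, hlin, hsec⟩ := hind
  have h1 := lin_frame (n := 0) (Φ := Fin.elim0) (c := 1) (fun D => ⟨Fin.elim0, by
    rw [Finset.univ_eq_empty, Finset.sum_empty]
    ext z
    obtain ⟨c, rfl⟩ := hbij.2 z
    rw [D.map_algebraMap]
    rfl⟩) hlin (fun l => (hsec l).1) one_ne_zero
  have h2 := h1.fintype_card_le_finrank
  rw [Fintype.card_fin] at h2
  simpa using h2

theorem down_log {k L : Type} [Field k] [CharZero k] [IsAlgClosed k] [Field L] [Algebra k L]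
    (r : ℕ) (hn : Algebra.trdeg k L = r) [Algebra.EssFiniteType k L]
    (G : Subgroup (L ≃ₐ[k] L)) [Finite G] (Bd : Place k (fixedField G) → Prop) (h : ℕ)
    (H : NumLe k L r (BdUp Bd) h) : NumLe k (fixedField G) r Bd h := by
  have hfinL : FiniteDimensional (fixedField G) L := by
    have hGal : IsGaloisGroup G (fixedField G) L := isGaloisGroup_fixed G
    exact IsGaloisGroup.finiteDimensional G (fixedField G) L
  have hnK : Algebra.trdeg k (fixedField G) = r := by
    rw [← hn, ← trdeg_add_eq k (fixedField G) (A := L),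
      trdeg_eq_zero (R := fixedField G) (A := L), add_zero]
  have h1 := pTRANS k (fixedField G) L r hnK
    (fun y hy => Pool.Agent.W619.Y.fin_over_adjoin r (fixedField G) y hy) Bd
  exact h1.2.2 h H

theorem main {k L : Type} [Field k] [CharZero k] [IsAlgClosed k] [Field L] [Algebra k L]
    [Algebra.EssFiniteType k L] {n : ℕ} (hn : Algebra.trdeg k L = n)
    (G : Subgroup (L ≃ₐ[k] L)) [Finite G] (V : Submodule k (Derivation k L L →ₗ[L] L))
    (hlf : ∀ θ ∈ V, IsLogForm n θ) (hcl : ∀ θ ∈ V, IsClosedForm θ)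
    (hstab : ∀ g ∈ G, ∀ θ ∈ V, ∃ θ' ∈ V, IsImage g θ θ')
    (hgen : ∃ (θ : Fin n → Derivation k L L →ₗ[L] L) (D : Fin n → Derivation k L L),
      (∀ i, θ i ∈ V) ∧ (Matrix.of fun i j => θ i (D j)).det ≠ 0)
    (hRT : ReidTaiLog n G V) :
    ∃ a : ℕ, a + Module.finrank k (constFields V) = n ∧
      KodLog k (fixedField G) n (polarBoundary G V) a ∧
      (FiniteDimensional k V → IsRegularOnModel (constFields V) →
        NumLe k (fixedField G) n (polarBoundary G V) a) := by
  obtain ⟨θ, D0, hθ, hD0⟩ := hgen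
  obtain ⟨a, r, t, P, U, har, ht, hP1, hP2, htS, hU, hUt, hUspan, hUlin, hr⟩ :=
    structure_thm hn (fun y hy => fin_adj y hy) V hlf hcl hθ hD0
  refine ⟨a, by rw [hr, har], kodB G V hn hlf hstab hRT hθ hP1 ht htS, ?_⟩
  rintro hfdV ⟨N, z, hz0, htop, hUB⟩
  refine down_log n hn G _ a ?_
  subst har
  rcases Nat.eq_zero_or_pos (a + r) with h0 | h0
  · obtain ⟨rfl, rfl⟩ : a = 0 ∧ r = 0 := by omega
    exact numLe_point hn _
  · refine numLe_U h0 hn (fun y hy => fin_adj y hy) ht hz0 htop hUt
      (fun l i j => hUB (U l) (hU l) i j) hUspan _ ?_ ?_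
    · intro P hB hdiv i hpres f
      exact log_of_polar hlf hdiv (polar_of_bdUp hstab hB) (hU i) hpres f
    · intro Z hZ
      obtain ⟨q, hq0, hq⟩ := exists_polar hZ V
      exact ⟨q, hq0, fun p hp P hP hB => hq p hp P hP (polar_of_bdUp hstab hB)⟩

end Pool.Agent.Y173.QL
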