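import Pool.Agent.Y173.QL.Str
import Pool.Agent.Y173.QA.Phi
import Pool.Agent.W619.Y.LDefs
import Pool.Agent.W314.PG.CONJ

/-! The poles of the forms: finiteness, invariance, and tangency of the constant vector fields. -/

set_option autoImplicit false
set_option linter.overlappingInstances false
set_option linter.unusedSectionVars false

open FF IntermediateField Pool.Agent.W619.PQ Pool.Agent.W619.PL Pool.Agent.W619.TW
  Pool.Agent.W603.LV Pool.Agent.W619.Y Pool.Agent.TH122.AB Pool.Agent.Y173.QA MvPolynomial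

namespace Pool.Agent.Y173.QL

variable {k : Type} [Field k] [CharZero k] {L : Type} [Field L] [Algebra k L]

/-- a form in `V` has a pole at `w` -/
def Polar (V : Submodule k (Derivation k L L →ₗ[L] L)) (w : Place k L) : Prop :=
  ∃ θ ∈ V, ¬ RegAt w θ

/-- all forms in `V` are regular at the places over the polynomials which do not divide a certain
polynomial -/
theorem exists_polar {d : ℕ} {Z : Fin d → L} (hZ : IsTranscendenceBasis k Z)
    (V : Submodule k (Derivation k L L →ₗ[L] L)) [FiniteDimensional k V] :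
    ∃ q : MvPolynomial (Fin d) k, q ≠ 0 ∧ ∀ p : MvPolynomial (Fin d) k, Irreducible p →
      ∀ P : Place k L, Adic Z p P → Polar V P → p ∣ q := by
  classical
  obtain ⟨E, hE⟩ := exists_duals hZ
  choose q hq0 hqi using fun s : L => exists_mult hZ s
  obtain ⟨s, hs⟩ := (Submodule.fg_iff_finiteDimensional V).2 inferInstance
  obtain ⟨Q, hQ⟩ : ∃ Q, Q = ∏ θ ∈ s, ∏ i, q (θ (E i)) := ⟨_, rfl⟩
  refine ⟨Q, ?_, fun p hp P hP hpol => ?_⟩
  · rw [hQ]
    exact Finset.prod_ne_zero_iff.2 fun θ _ => Finset.prod_ne_zero_iff.2 fun i _ => hq0 _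
  by_contra hcon
  obtain ⟨θ, hθ, hnr⟩ := hpol
  apply hnr
  have hval : ∀ τ ∈ s, ∀ i, P.Reg (τ (E i)) := by
    intro τ hτ i
    have h1 : P.Reg (aeval Z (q (τ (E i))) * τ (E i)) := reg_of_int (adic_reg hP) (hqi _)
    have h2 : ¬ p ∣ q (τ (E i)) := by
      intro h2
      apply hcon
      rw [hQ]
      refine h2.trans ((Finset.dvd_prod_of_mem (fun i => q (τ (E i))) (Finset.mem_univ i)).trans ?_)
      exact Finset.dvd_prod_of_mem (fun τ => ∏ i, q (τ (E i))) hτ
    have h3 := (hP _ (hq0 (τ (E i)))).2.2 h2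
    have h4 : aeval Z (q (τ (E i))) ≠ 0 := fun h0 =>
      hq0 _ ((injective_iff_map_eq_zero _).1 hZ.1 _ h0)
    have h5 : Ge P (0 + 0) (aeval Z (q (τ (E i))) * τ (E i)) := h1
    exact Ge.of_mul' h4 h3 h5
  rw [← hs] at hθ
  intro D hD
  have hD2 : ∀ i, P.Reg (D (Z i)) := fun i => hD _ (adic_var hP i)
  have hgen : ∀ τ : Derivation k L L →ₗ[L] L, τ D = ∑ i, D (Z i) * τ (E i) := by
    intro τ
    conv_lhs => rw [der_expand hZ hE D]
    rw [map_sum]
    exact Finset.sum_congr rfl fun i _ => by rw [map_smul, smul_eq_mul]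
  induction hθ using Submodule.span_induction with
  | mem τ hτ =>
    rw [hgen]
    exact Ge.sum _ _ fun i _ => P.reg_mul (hD2 i) (hval τ hτ i)
  | zero => exact P.reg_zero
  | add τ τ' _ _ h h' =>
    by_cases h1 : RegAt P τ
    · exact P.reg_add (h1 D hD) (h' (by
        intro h2
        apply hnr
        intro D' hD'
        exact P.reg_add (h1 D' hD') (h2 D' hD')))
    · exact P.reg_add (h h1) (by
        by_cases h2 : RegAt P τ'
        · exact h2 D hD
        · exact h' h2)
  | smul c τ _ h =>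
    have h1 : (c • τ) D = algebraMap k L c * τ D := by
      rw [LinearMap.smul_apply, Algebra.smul_def]
    rw [h1]
    refine P.reg_mul (P.reg_const c) ?_
    by_cases h2 : RegAt P τ
    · exact h2 D hD
    · exact h h2

/-- the poles are invariant -/
theorem polar_of_bdUp [IsAlgClosed k] {G : Subgroup (L ≃ₐ[k] L)} [Finite G]
    {V : Submodule k (Derivation k L L →ₗ[L] L)}
    (hstab : ∀ g ∈ G, ∀ θ ∈ V, ∃ θ' ∈ V, IsImage g θ θ') {w : Place k L}
    (h : BdUp (polarBoundary G V) w) : Polar V w := by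
  obtain ⟨v, e, hwv, w', e', hwv', θ, hθ, hnr⟩ := h
  obtain ⟨g, hg⟩ := Pool.Agent.W314.PG.CONJ.main k L G v w w' e e' hwv hwv'
  obtain ⟨θ', hθ', him⟩ := hstab g g.2 θ hθ
  refine ⟨θ', hθ', fun hr => hnr ?_⟩
  have hrg : ∀ z : L, w'.Reg z ↔ w.Reg ((g : L ≃ₐ[k] L) z) := by
    intro z
    unfold Place.Reg
    rw [hg, map_eq_zero_iff _ (g : L ≃ₐ[k] L).injective]
  intro D hD
  rw [isImage_iff] at him
  have h1 : w.Reg (θ' (conj (g : L ≃ₐ[k] L) D)) := by
    apply hr
    intro f hf
    rw [conj_apply, ← hrg]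
    apply hD
    rw [hrg]
    simpa using hf
  rw [him, act_apply, conj_conj_symm] at h1
  exact (hrg _).2 h1

/-- the constant vector fields are tangent to the polar divisor -/
theorem log_of_polar {n : ℕ} {V : Submodule k (Derivation k L L →ₗ[L] L)}
    (hlf : ∀ θ ∈ V, IsLogForm n θ) {P : Place k L} (hdiv : IsDivisorial P n) (hpol : Polar V P)
    {U : Derivation k L L} (hU : U ∈ constFields V) (hpres : Pres P U) (f : L) :
    P.Reg (U f / f) := by
  obtain ⟨s, hs0, hs⟩ := P.surj
  refine log_of_pres P U hpres hs0 hs ?_ f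
  by_contra hcon
  have h0 : P.Reg (U s) := hpres s (Or.inr (by omega))
  have hUs0 : U s ≠ 0 := by
    intro h1
    apply hcon
    left
    rw [h1, zero_div]
  have hUs : P.ord (U s) = 0 := by
    have h1 : 0 ≤ P.ord (U s) := h0.resolve_left hUs0
    by_contra h2
    apply hcon
    right
    rw [P.ord_div hUs0 hs0, hs]
    omega
  obtain ⟨θ, hθ, hnr⟩ := hpol
  apply hnr
  intro D hD
  obtain ⟨c, hc⟩ := hU θ hθ
  have hDs : Ge P 0 (D s / U s) := by
    rw [div_eq_mul_inv]
    have h1 : Ge P 0 (D s) := hD s (Or.inr (by omega))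
    have h2 : Ge P 0 (U s)⁻¹ := Or.inr (by rw [P.ord_inv, hUs]; norm_num)
    have h3 := h1.mul h2
    rwa [add_zero] at h3
  obtain ⟨D1, hD1⟩ : ∃ D1, D1 = D - (D s / U s) • U := ⟨_, rfl⟩
  have hD1p : Pres P D1 := by
    intro z hz
    rw [hD1, Derivation.sub_apply, Derivation.smul_apply, smul_eq_mul]
    have h1 : Ge P 0 (D z) := hD z hz
    have h2 : Ge P 0 (U z) := hpres z hz
    have h3 := hDs.mul h2
    rw [add_zero] at h3
    exact h1.sub h3
  have hD1s : D1 s = 0 := by
    rw [hD1, Derivation.sub_apply, Derivation.smul_apply, smul_eq_mul, div_mul_cancel₀ _ hUs0,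
      sub_self]
  have h1 : P.Reg (θ D1) := hlf θ hθ P hdiv D1 fun z =>
    log_of_pres P D1 hD1p hs0 hs (by rw [hD1s, zero_div]; exact P.reg_zero) z
  have h2 : θ D = θ D1 + (D s / U s) * algebraMap k L c := by
    rw [hD1, map_sub, map_smul, smul_eq_mul, hc]
    ring
  rw [h2]
  exact P.reg_add h1 (P.reg_mul hDs (P.reg_const c))

end Pool.Agent.Y173.QL
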